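import Pool.Agent.H28.BR.Stm4

set_option autoImplicit false

/-! Project BR3, CLS: residue classes. -/

namespace Pool.Agent.H94.BR

open Finset Filter Topology MeasureTheory Pool.Agent.H28.BR3
open Pool.Agent.Helper112 (ee)

noncomputable section

theorem ee_addC (x y : ℝ) : ee (x + y) = ee x * ee y := by
  unfold Pool.Agent.Helper112.ee
  rw [← Complex.exp_add]
  congr 1
  push_cast
  ring

theorem ee_normC (x : ℝ) : ‖ee x‖ = 1 := by
  unfold Pool.Agent.Helper112.ee
  have h1 : (2 * (Real.pi : ℂ) * (x : ℂ) * Complex.I) = ((2 * Real.pi * x : ℝ) : ℂ) * Complex.I := by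
    push_cast
    ring
  rw [h1, Complex.norm_exp_ofReal_mul_I]

theorem ee_powC (j : ℕ) (x : ℝ) : ee (j * x) = ee x ^ j := by
  unfold Pool.Agent.Helper112.ee
  rw [← Complex.exp_nat_mul]
  congr 1
  push_cast
  ring

theorem ee_intC (k : ℤ) : ee (k : ℝ) = 1 := by
  unfold Pool.Agent.Helper112.ee
  rw [Complex.exp_eq_one_iff]
  exact ⟨k, by push_cast; ring⟩

theorem ee_oneC {x : ℝ} (h : ee x = 1) : ∃ k : ℤ, x = k := by
  unfold Pool.Agent.Helper112.ee at h
  rw [Complex.exp_eq_one_iff] at h
  obtain ⟨k, hk⟩ := h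
  refine ⟨k, ?_⟩
  have h2 : (2 * (Real.pi : ℂ) * Complex.I) ≠ 0 := by
    simp [Real.pi_ne_zero]
  have h3 : (x : ℂ) * (2 * (Real.pi : ℂ) * Complex.I) = (k : ℂ) * (2 * (Real.pi : ℂ) * Complex.I) := by
    rw [← hk]
    ring
  have h4 := mul_right_cancel₀ h2 h3
  exact_mod_cast h4

/-- the indicator function of a residue class -/
theorem detect (q b n : ℕ) (hq : 1 ≤ q) (hb : b < q) : (if n % q = b then (1 : ℂ) else 0) =
    (1 / (q : ℂ)) * ∑ j ∈ range q, ee ((j : ℝ) * (((n : ℝ) - b) / q)) := by
  have hq' : (q : ℝ) ≠ 0 := by positivity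
  have hqc : (q : ℂ) ≠ 0 := by exact_mod_cast hq'
  simp_rw [ee_powC]
  split_ifs with h
  · obtain ⟨k, hk⟩ : ∃ k : ℕ, n = q * k + b := ⟨n / q, by rw [← h]; exact (Nat.div_add_mod n q).symm⟩
    have h1 : ((n : ℝ) - b) / q = ((k : ℤ) : ℝ) := by
      rw [hk]
      push_cast
      field_simp
      ring
    rw [h1, ee_intC]
    simp only [one_pow, sum_const, card_range, nsmul_eq_mul, mul_one]
    field_simp
  · set ζ : ℂ := ee (((n : ℝ) - b) / q) with hζ
    have h1 : ζ ≠ 1 := by
      intro h1
      obtain ⟨k, hk⟩ := ee_oneC h1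
      have h2 : ((n : ℝ)) = b + q * k := by
        rw [div_eq_iff hq'] at hk
        linarith
      have h3 : (n : ℤ) = b + q * k := by exact_mod_cast h2
      apply h
      have h4 : (n : ℤ) % q = b := by
        rw [h3, Int.add_mul_emod_self_left]
        exact Int.emod_eq_of_lt (by positivity) (by exact_mod_cast hb)
      exact_mod_cast h4
    have h2 : ζ ^ q = 1 := by
      rw [hζ, ← ee_powC]
      have h3 : (q : ℝ) * (((n : ℝ) - b) / q) = (((n : ℤ) - (b : ℤ) : ℤ) : ℝ) := by
        push_cast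
        field_simp
      rw [h3, ee_intC]
    have h3 := geom_sum_mul ζ q
    rw [h2, sub_self] at h3
    have h4 : ∑ i ∈ range q, ζ ^ i = 0 := by
      rcases mul_eq_zero.1 h3 with h5 | h5
      · exact h5
      · exact absurd (sub_eq_zero.1 h5) h1
    rw [h4, mul_zero]

theorem t_CLS : S_CLS := by
  intro w hw hpos hθ q b hq θ hirr
  by_cases hb : b < q
  · have hq' : (0 : ℝ) < q := by exact_mod_cast hq
    have hlim : Tendsto (fun X : ℕ => (1 / (q : ℝ)) * ∑ j ∈ range q,
        (‖∑ n ∈ Ioc 1 X, (w n : ℂ) * ee ((θ + (j : ℝ) / q) * n)‖ / ∑ n ∈ Ioc 1 X, w n)) atTop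
        (𝓝 ((1 / (q : ℝ)) * ∑ j ∈ range q, (0 : ℝ))) := by
      apply Tendsto.const_mul
      apply tendsto_finsetSum
      intro j _
      apply hθ
      have h1 := hirr.add_ratCast ((j : ℚ) / q)
      push_cast at h1
      exact h1
    rw [sum_const_zero, mul_zero] at hlim
    refine squeeze_zero' ?_ ?_ hlim
    · filter_upwards [hpos] with X hX
      positivity
    · filter_upwards [hpos] with X hX
      have e1 : ∑ n ∈ (Ioc 1 X).filter (fun n => n % q = b), (w n : ℂ) * ee (θ * n) =
          (1 / (q : ℂ)) * ∑ j ∈ range q, ee (-((j : ℝ) * (b / q))) *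
            ∑ n ∈ Ioc 1 X, (w n : ℂ) * ee ((θ + (j : ℝ) / q) * n) := by
        rw [Finset.sum_filter]
        have e2 : ∀ n : ℕ, (if n % q = b then (w n : ℂ) * ee (θ * n) else 0) =
            (1 / (q : ℂ)) * ∑ j ∈ range q, ee (-((j : ℝ) * (b / q))) *
              ((w n : ℂ) * ee ((θ + (j : ℝ) / q) * n)) := by
          intro n
          have h1 : (if n % q = b then (w n : ℂ) * ee (θ * n) else 0) =
              (if n % q = b then (1 : ℂ) else 0) * ((w n : ℂ) * ee (θ * n)) := by
            split_ifs <;> simp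
          rw [h1, detect q b n hq hb, mul_assoc, Finset.sum_mul]
          congr 1
          apply sum_congr rfl
          intro j _
          have h2 : ee ((j : ℝ) * (((n : ℝ) - b) / q)) * ((w n : ℂ) * ee (θ * n)) =
              (w n : ℂ) * (ee ((j : ℝ) * (((n : ℝ) - b) / q)) * ee (θ * n)) := by ring
          have h3 : ee (-((j : ℝ) * (b / q))) * ((w n : ℂ) * ee ((θ + (j : ℝ) / q) * n)) =
              (w n : ℂ) * (ee (-((j : ℝ) * (b / q))) * ee ((θ + (j : ℝ) / q) * n)) := by ring
          rw [h2, h3, ← ee_addC, ← ee_addC]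
          congr 2
          field_simp
          ring
        simp_rw [e2]
        rw [← Finset.mul_sum, Finset.sum_comm]
        congr 1
        apply sum_congr rfl
        intro j _
        rw [Finset.mul_sum]
      rw [e1, ← Finset.sum_div, ← mul_div_assoc]
      apply div_le_div_of_nonneg_right _ hX.le
      rw [norm_mul]
      have h1 : ‖(1 / (q : ℂ))‖ = 1 / (q : ℝ) := by
        rw [norm_div, norm_one, Complex.norm_natCast]
      rw [h1]
      apply mul_le_mul_of_nonneg_left _ (by positivity)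
      refine (norm_sum_le _ _).trans (sum_le_sum fun j _ => ?_)
      rw [norm_mul, ee_normC, one_mul]
  · have h1 : ∀ X : ℕ, (Ioc 1 X).filter (fun n => n % q = b) = ∅ := by
      intro X
      apply filter_eq_empty_iff.2
      intro n _ h
      have := Nat.mod_lt n hq
      omega
    simp only [h1, sum_empty, norm_zero, zero_div]
    exact tendsto_const_nhds

end

end Pool.Agent.H94.BR
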