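import Pool.Agent.H28.BR.FAM
import Pool.Agent.H28.BR.Stm3

set_option autoImplicit false

/-! Project BR3, IR2: the exponential sum with the squares of the central values, all families. -/

namespace Pool.Agent.H94.BR

open Finset Filter Topology MeasureTheory Pool.Agent.H306R2.RZ Pool.Agent.H306R2.RG
  Pool.Agent.Q122.FM Pool.Agent.H28.BR Pool.Agent.H28.BR3
open Pool.Agent.Helper112 (ee)

noncomputable section

/-- a sum over one class -/
def CG (f : ℕ → ℝ) (c y x : ℕ) (G : ℕ → ℂ) : ℂ :=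
  ∑ d ∈ (Ioc y x).filter (fun d => d % 8 = c ∧ Squarefree d), (f d : ℂ) * G d

open Classical in
theorem splitG (A : ℕ → Prop) (f : ℕ → ℝ) (Cl : Finset ℕ) (y x : ℕ) (G : ℕ → ℂ)
    (hA : ∀ d, y < d → Squarefree d → (A d ↔ d % 8 ∈ Cl)) :
    ∑ d ∈ Ioc y x, ((if A d ∧ Squarefree d then f d else 0 : ℝ) : ℂ) * G d =
      ∑ c ∈ Cl, CG f c y x G := by
  unfold CG
  simp_rw [sum_filter]
  rw [sum_comm]
  apply sum_congr rfl
  intro d hd
  rw [mem_Ioc] at hd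
  by_cases hs : Squarefree d
  · have h1 := hA d hd.1 hs
    by_cases h2 : d % 8 ∈ Cl
    · rw [if_pos ⟨h1.2 h2, hs⟩, sum_eq_single (d % 8)]
      · rw [if_pos ⟨rfl, hs⟩]
      · intro c _ hc
        rw [if_neg (fun h => hc h.1.symm)]
      · intro h; exact absurd h2 h
    · rw [if_neg (fun h => h2 (h1.1 h.1)), Complex.ofReal_zero, zero_mul]
      symm
      apply sum_eq_zero
      intro c hc
      rw [if_neg]
      rintro ⟨h3, _⟩
      exact h2 (h3 ▸ hc)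
  · rw [if_neg (fun h => hs h.2), Complex.ofReal_zero, zero_mul]
    symm
    apply sum_eq_zero
    intro c _
    rw [if_neg (fun h => hs h.2)]

/-- the square of the central value -/
def L2 (φ : FD) (d : ℕ) : ℝ := LLg φ d (1 / 2) ^ 2

/-- the decomposition of a sum of squares over the fundamental discriminants -/
theorem Lf2_eq (fdd : S_FDD) (ε : ℤ) (hε : ε = 1 ∨ ε = -1) (Cl8 Cl4 Cl1 Cl5 : Finset ℕ)
    (o4 : ∀ c ∈ Cl4, c % 2 = 1) (o1 : ∀ c ∈ Cl1, c % 2 = 1) (o5 : ∀ c ∈ Cl5, c % 2 = 1)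
    (o15 : Disjoint Cl1 Cl5)
    (h8 : ∀ d : ℕ, 1 ≤ d → Squarefree d → ((F8 ε).A d ↔ d % 8 ∈ Cl8))
    (h4 : ∀ d : ℕ, 1 ≤ d → Squarefree d → ((F4 ε).A d ↔ d % 8 ∈ Cl4))
    (h1 : ∀ d : ℕ, 2 ≤ d → Squarefree d → ((F1 ε 1).A d ↔ d % 8 ∈ Cl1))
    (h5 : ∀ d : ℕ, 2 ≤ d → Squarefree d → ((F1 ε 5).A d ↔ d % 8 ∈ Cl5))
    (X : ℕ) (G : ℕ → ℂ) :
    ∑ n ∈ Ioc 1 X, ((Lf ε n ^ 2 : ℝ) : ℂ) * G n =
      ∑ c ∈ Cl8, CG (L2 (F8 ε)) c 0 (X / 8) (fun d => G (8 * d)) +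
      ∑ c ∈ Cl4, CG (L2 (F4 ε)) c 0 (X / 4) (fun d => G (4 * d)) +
      ∑ c ∈ Cl1, CG (L2 (F1 ε 1)) c 1 X G +
      ∑ c ∈ Cl5, CG (L2 (F1 ε 5)) c 1 X G := by
  classical
  have e0 : ∑ n ∈ Ioc 1 X, ((Lf ε n ^ 2 : ℝ) : ℂ) * G n = ∑ n ∈ Ioc 1 X,
      (((if 8 ∣ n ∧ ((F8 ε).A (n / 8) ∧ Squarefree (n / 8)) then
        L2 (F8 ε) (n / 8) else 0 : ℝ) : ℂ) * G n +
      ((if 4 ∣ n ∧ ((F4 ε).A (n / 4) ∧ Squarefree (n / 4)) then
        L2 (F4 ε) (n / 4) else 0 : ℝ) : ℂ) * G n +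
      ((if (F1 ε 1).A n ∧ Squarefree n then L2 (F1 ε 1) n else 0 : ℝ) : ℂ) * G n +
      ((if (F1 ε 5).A n ∧ Squarefree n then L2 (F1 ε 5) n else 0 : ℝ) : ℂ) * G n) := by
    apply sum_congr rfl
    intro n hn
    rw [mem_Ioc] at hn
    have h := fdd.2 ε hε n (by omega)
    have h' : Lf ε n = (if 8 ∣ n ∧ ((F8 ε).A (n / 8) ∧ Squarefree (n / 8)) then
        LLg (F8 ε) (n / 8) (1 / 2) else 0) +
      (if 4 ∣ n ∧ ((F4 ε).A (n / 4) ∧ Squarefree (n / 4)) then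
        LLg (F4 ε) (n / 4) (1 / 2) else 0) +
      (if (F1 ε 1).A n ∧ Squarefree n then LLg (F1 ε 1) n (1 / 2) else 0) +
      (if (F1 ε 5).A n ∧ Squarefree n then LLg (F1 ε 5) n (1 / 2) else 0) := by
      unfold Lf
      convert h using 4
    have c8 : (8 ∣ n ∧ ((F8 ε).A (n / 8) ∧ Squarefree (n / 8))) →
        ¬ (4 ∣ n ∧ ((F4 ε).A (n / 4) ∧ Squarefree (n / 4))) := by
      rintro ⟨a1, _, _⟩ ⟨_, b1, b2⟩
      have := o4 _ ((h4 (n / 4) (by omega) b2).1 b1)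
      omega
    have c81 : (8 ∣ n ∧ ((F8 ε).A (n / 8) ∧ Squarefree (n / 8))) →
        ¬ ((F1 ε 1).A n ∧ Squarefree n) := by
      rintro ⟨a1, _, _⟩ ⟨b1, b2⟩
      have := o1 _ ((h1 n (by omega) b2).1 b1)
      omega
    have c85 : (8 ∣ n ∧ ((F8 ε).A (n / 8) ∧ Squarefree (n / 8))) →
        ¬ ((F1 ε 5).A n ∧ Squarefree n) := by
      rintro ⟨a1, _, _⟩ ⟨b1, b2⟩
      have := o5 _ ((h5 n (by omega) b2).1 b1)
      omega
    have c41 : (4 ∣ n ∧ ((F4 ε).A (n / 4) ∧ Squarefree (n / 4))) →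
        ¬ ((F1 ε 1).A n ∧ Squarefree n) := by
      rintro ⟨a1, _, _⟩ ⟨b1, b2⟩
      have := o1 _ ((h1 n (by omega) b2).1 b1)
      omega
    have c45 : (4 ∣ n ∧ ((F4 ε).A (n / 4) ∧ Squarefree (n / 4))) →
        ¬ ((F1 ε 5).A n ∧ Squarefree n) := by
      rintro ⟨a1, _, _⟩ ⟨b1, b2⟩
      have := o5 _ ((h5 n (by omega) b2).1 b1)
      omega
    have c15 : ((F1 ε 1).A n ∧ Squarefree n) → ¬ ((F1 ε 5).A n ∧ Squarefree n) := by
      rintro ⟨a1, a2⟩ ⟨b1, _⟩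
      exact Finset.disjoint_left.1 o15 ((h1 n (by omega) a2).1 a1) ((h5 n (by omega) a2).1 b1)
    rw [h', ← add_mul, ← add_mul, ← add_mul]
    congr 1
    rw [← Complex.ofReal_add, ← Complex.ofReal_add, ← Complex.ofReal_add]
    congr 1
    unfold L2
    by_cases q8 : (8 ∣ n ∧ ((F8 ε).A (n / 8) ∧ Squarefree (n / 8)))
    · rw [if_pos q8, if_neg (c8 q8), if_neg (c81 q8), if_neg (c85 q8), if_pos q8, if_neg (c8 q8),
        if_neg (c81 q8), if_neg (c85 q8)]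
      ring
    · rw [if_neg q8, if_neg q8]
      by_cases q4 : (4 ∣ n ∧ ((F4 ε).A (n / 4) ∧ Squarefree (n / 4)))
      · rw [if_pos q4, if_neg (c41 q4), if_neg (c45 q4), if_pos q4, if_neg (c41 q4), if_neg (c45 q4)]
        ring
      · rw [if_neg q4, if_neg q4]
        by_cases q1 : ((F1 ε 1).A n ∧ Squarefree n)
        · rw [if_pos q1, if_neg (c15 q1), if_pos q1, if_neg (c15 q1)]
          ring
        · rw [if_neg q1, if_neg q1]
          by_cases q5 : ((F1 ε 5).A n ∧ Squarefree n)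
          · rw [if_pos q5, if_pos q5]
            ring
          · rw [if_neg q5, if_neg q5]
            ring
  rw [e0, sum_add_distrib, sum_add_distrib, sum_add_distrib]
  have a8 := sum_dvdC 8 (by norm_num) (fun d => (F8 ε).A d ∧ Squarefree d)
    (fun d => L2 (F8 ε) d) G 1 X
  have a4 := sum_dvdC 4 (by norm_num) (fun d => (F4 ε).A d ∧ Squarefree d)
    (fun d => L2 (F4 ε) d) G 1 X
  have b8 := splitG (F8 ε).A (L2 (F8 ε)) Cl8 0 (X / 8) (fun d => G (8 * d))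
    (fun d hd hs => h8 d (by omega) hs)
  have b4 := splitG (F4 ε).A (L2 (F4 ε)) Cl4 0 (X / 4) (fun d => G (4 * d))
    (fun d hd hs => h4 d (by omega) hs)
  have b1 := splitG (F1 ε 1).A (L2 (F1 ε 1)) Cl1 1 X G (fun d hd hs => h1 d (by omega) hs)
  have b5 := splitG (F1 ε 5).A (L2 (F1 ε 5)) Cl5 1 X G (fun d hd hs => h5 d (by omega) hs)
  have z8 : (1 : ℕ) / 8 = 0 := by norm_num
  have z4 : (1 : ℕ) / 4 = 0 := by norm_num
  rw [z8] at a8
  rw [z4] at a4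
  rw [← b8, ← b4, ← b1, ← b5, ← a8, ← a4]

theorem main_mono {r X : ℕ} (h1 : 1 ≤ X / r) :
    ((X / r : ℕ) : ℝ) * lg (X / r) ^ 3 ≤ (X : ℝ) * lg X ^ 3 := by
  have hXr' : ((X / r : ℕ) : ℝ) ≤ (X : ℝ) := by exact_mod_cast Nat.div_le_self X r
  have hXr0 : (1 : ℝ) ≤ ((X / r : ℕ) : ℝ) := by exact_mod_cast h1
  have hlg : lg (X / r) ≤ lg X := by
    unfold lg
    have : Real.log ((X / r : ℕ) : ℝ) ≤ Real.log X := Real.log_le_log (by linarith) hXr'
    linarith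
  have hlg1 : 1 ≤ lg (X / r) := lg_one_le h1
  gcongr

/-- one class of one family -/
theorem cls (cl2 : S_CL2) (φ : FD) (hφ : Fam φ) (c : ℕ) (hc : c < 8) (ho : Odd c)
    (hA : ∀ d : ℕ, d % 8 = c → Squarefree d → d ≠ 1 → φ.A d) (θ : ℝ) (hθ : Irrational θ)
    (r : ℕ) (hr : 1 ≤ r) (y : ℕ) (hy : y ≤ 1) (δ : ℝ) (hδ : 0 < δ) :
    ∀ᶠ X : ℕ in atTop, ‖CG (L2 φ) c y (X / r) (fun d => ee (θ * ((r * d : ℕ) : ℝ)))‖ ≤
      δ * (X * lg X ^ 3) := by
  have hθr : Irrational (θ * r) := by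
    have := hθ.mul_natCast (m := r) (by omega)
    exact this
  obtain ⟨X1, hX1⟩ := cl2 φ hφ c hc ho hA (θ * r) hθr (δ / 2) (by positivity)
  set M : ℝ := L2 φ 1 with hM
  have hM0 : 0 ≤ M := by rw [hM]; unfold L2; positivity
  have hlarge : ∀ᶠ X : ℕ in atTop, M ≤ δ / 2 * X := by
    have h1 : Tendsto (fun X : ℕ => δ / 2 * (X : ℝ)) atTop atTop :=
      Tendsto.const_mul_atTop (by positivity) tendsto_natCast_atTop_atTop
    exact h1.eventually_ge_atTop M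
  filter_upwards [hlarge, eventually_ge_atTop (r * (X1 + 1))] with X hXM hXr
  have hdiv : X1 + 1 ≤ X / r := by
    rw [Nat.le_div_iff_mul_le (by omega)]
    linarith [mul_comm r (X1 + 1)]
  have h1 : 1 ≤ X / r := by omega
  have hXpos : 1 ≤ X := h1.trans (Nat.div_le_self X r)
  have hmain := hX1 (X / r) (by omega)
  have hmono := main_mono (r := r) (X := X) h1
  have hlg1 : 1 ≤ lg X := lg_one_le hXpos
  have hlg3 : 1 ≤ lg X ^ 3 := one_le_pow₀ hlg1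
  have hX0 : (0 : ℝ) ≤ (X : ℝ) := Nat.cast_nonneg X
  unfold CG
  rw [← Finset.sum_filter_add_sum_filter_not
    ((Ioc y (X / r)).filter (fun d => d % 8 = c ∧ Squarefree d)) (fun d => d ≠ 1)]
  have e1 : ∑ d ∈ ((Ioc y (X / r)).filter (fun d => d % 8 = c ∧ Squarefree d)).filter
      (fun d => d ≠ 1), (L2 φ d : ℂ) * ee (θ * ((r * d : ℕ) : ℝ)) =
      ∑ d ∈ (Icc 1 (X / r)).filter (fun d => d % 8 = c ∧ Squarefree d ∧ d ≠ 1),
      ee (θ * r * d) * ((LLg φ d (1 / 2) ^ 2 : ℝ) : ℂ) := by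
    apply sum_congr
    · ext d
      simp only [mem_filter, mem_Ioc, mem_Icc]
      constructor
      · rintro ⟨⟨⟨a1, a2⟩, a3, a4⟩, a5⟩
        exact ⟨⟨by omega, a2⟩, a3, a4, a5⟩
      · rintro ⟨⟨a1, a2⟩, a3, a4, a5⟩
        exact ⟨⟨⟨by omega, a2⟩, a3, a4⟩, a5⟩
    · intro d _
      rw [show θ * ((r * d : ℕ) : ℝ) = θ * r * d by push_cast; ring, mul_comm]
      rfl
  rw [e1]
  have e2 : ‖∑ d ∈ ((Ioc y (X / r)).filter (fun d => d % 8 = c ∧ Squarefree d)).filter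
      (fun d => ¬ d ≠ 1), (L2 φ d : ℂ) * ee (θ * ((r * d : ℕ) : ℝ))‖ ≤ M := by
    refine (norm_sum_le _ _).trans ?_
    have h2 : ∀ d ∈ ((Ioc y (X / r)).filter (fun d => d % 8 = c ∧ Squarefree d)).filter
      (fun d => ¬ d ≠ 1), ‖(L2 φ d : ℂ) * ee (θ * ((r * d : ℕ) : ℝ))‖ ≤ M := by
      intro d hd
      simp only [mem_filter, not_not] at hd
      rw [hd.2, norm_mul, norm_ee, mul_one, Complex.norm_real, Real.norm_eq_abs, abs_of_nonneg hM0]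
    refine (Finset.sum_le_card_nsmul _ _ _ h2).trans ?_
    have h3 : (((Ioc y (X / r)).filter (fun d => d % 8 = c ∧ Squarefree d)).filter
      (fun d => ¬ d ≠ 1)).card ≤ 1 := by
      have : (((Ioc y (X / r)).filter (fun d => d % 8 = c ∧ Squarefree d)).filter
        (fun d => ¬ d ≠ 1)) ⊆ {1} := by
        intro d hd
        simp only [mem_filter, not_not] at hd
        rw [mem_singleton]; exact hd.2
      exact (Finset.card_le_card this).trans (by simp)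
    rw [nsmul_eq_mul]
    have h4 : ((((((Ioc y (X / r)).filter (fun d => d % 8 = c ∧ Squarefree d)).filter
      (fun d => ¬ d ≠ 1)).card : ℕ) : ℝ)) ≤ 1 := by exact_mod_cast h3
    nlinarith
  refine (norm_add_le _ _).trans ?_
  have h5 : δ / 2 * (((X / r : ℕ) : ℝ) * lg (X / r) ^ 3) ≤ δ / 2 * ((X : ℝ) * lg X ^ 3) :=
    mul_le_mul_of_nonneg_left hmono (by positivity)
  have h6 : M ≤ δ / 2 * ((X : ℝ) * lg X ^ 3) := by
    refine hXM.trans ?_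
    have : (X : ℝ) ≤ (X : ℝ) * lg X ^ 3 := by nlinarith
    exact mul_le_mul_of_nonneg_left this (by positivity)
  linarith

/-- all classes of one family -/
theorem clsF (cl2 : S_CL2) (φ : FD) (hφ : Fam φ) (Cl : Finset ℕ) (hc : ∀ c ∈ Cl, c < 8 ∧ Odd c)
    (hA : ∀ c ∈ Cl, ∀ d : ℕ, d % 8 = c → Squarefree d → d ≠ 1 → φ.A d) (θ : ℝ)
    (hθ : Irrational θ) (r : ℕ) (hr : 1 ≤ r) (y : ℕ) (hy : y ≤ 1) (δ : ℝ) (hδ : 0 < δ) :
    ∀ᶠ X : ℕ in atTop, ‖∑ c ∈ Cl, CG (L2 φ) c y (X / r) (fun d => ee (θ * ((r * d : ℕ) : ℝ)))‖ ≤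
      δ * (X * lg X ^ 3) := by
  have hK : (0 : ℝ) < (Cl.card : ℝ) + 1 := by positivity
  have h := (Finset.eventually_all Cl).2 (fun c hc' => cls cl2 φ hφ c (hc c hc').1 (hc c hc').2
    (hA c hc') θ hθ r hr y hy (δ / ((Cl.card : ℝ) + 1)) (by positivity))
  filter_upwards [h, eventually_ge_atTop 1] with X hX hX1
  refine (norm_sum_le _ _).trans ?_
  refine (Finset.sum_le_card_nsmul _ _ _ hX).trans ?_
  rw [nsmul_eq_mul]
  have hlg1 : 1 ≤ lg X := lg_one_le hX1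
  have hR : 0 ≤ (X : ℝ) * lg X ^ 3 := by positivity
  have e : (Cl.card : ℝ) * (δ / ((Cl.card : ℝ) + 1) * (X * lg X ^ 3)) =
      (Cl.card / ((Cl.card : ℝ) + 1)) * (δ * (X * lg X ^ 3)) := by
    field_simp
  rw [e]
  have h1 : (Cl.card / ((Cl.card : ℝ) + 1)) ≤ 1 := by
    rw [div_le_one hK]; linarith
  have h2 : 0 ≤ δ * (X * lg X ^ 3) := by positivity
  nlinarith

/-- the bound for given classes -/
theorem gen (cl2 : S_CL2) (fdd : S_FDD) (ε : ℤ) (hε : ε = 1 ∨ ε = -1) (Cl8 Cl4 Cl1 Cl5 : Finset ℕ)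
    (hc : ∀ c ∈ Cl8 ∪ Cl4 ∪ Cl1 ∪ Cl5, c < 8 ∧ Odd c) (o15 : Disjoint Cl1 Cl5)
    (h8 : ∀ d : ℕ, 1 ≤ d → Squarefree d → ((F8 ε).A d ↔ d % 8 ∈ Cl8))
    (h4 : ∀ d : ℕ, 1 ≤ d → Squarefree d → ((F4 ε).A d ↔ d % 8 ∈ Cl4))
    (h1 : ∀ d : ℕ, 2 ≤ d → Squarefree d → ((F1 ε 1).A d ↔ d % 8 ∈ Cl1))
    (h5 : ∀ d : ℕ, 2 ≤ d → Squarefree d → ((F1 ε 5).A d ↔ d % 8 ∈ Cl5))
    (θ : ℝ) (hθ : Irrational θ) (δ : ℝ) (hδ : 0 < δ) :
    ∃ X0 : ℕ, ∀ X : ℕ, X0 ≤ X →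
      ‖∑ n ∈ Ioc 1 X, ((Lf ε n ^ 2 : ℝ) : ℂ) * ee (θ * n)‖ ≤ δ * (X * lg X ^ 3) := by
  have f8 : Fam (F8 ε) := ⟨ε, hε, Or.inl rfl⟩
  have f4 : Fam (F4 ε) := ⟨ε, hε, Or.inr (Or.inl rfl)⟩
  have f1 : Fam (F1 ε 1) := ⟨ε, hε, Or.inr (Or.inr (Or.inl rfl))⟩
  have f5 : Fam (F1 ε 5) := ⟨ε, hε, Or.inr (Or.inr (Or.inr rfl))⟩
  have c8 : ∀ c ∈ Cl8, c < 8 ∧ Odd c := fun c h => hc c (by simp [h])
  have c4 : ∀ c ∈ Cl4, c < 8 ∧ Odd c := fun c h => hc c (by simp [h])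
  have c1 : ∀ c ∈ Cl1, c < 8 ∧ Odd c := fun c h => hc c (by simp [h])
  have c5 : ∀ c ∈ Cl5, c < 8 ∧ Odd c := fun c h => hc c (by simp [h])
  have pos : ∀ c : ℕ, Odd c → ∀ d : ℕ, d % 8 = c → 1 ≤ d := by
    intro c ho d hd
    rw [Nat.odd_iff] at ho
    omega
  have b8 := clsF cl2 (F8 ε) f8 Cl8 c8 (fun c hc' d hd hs _ =>
    (h8 d (pos c (c8 c hc').2 d hd) hs).2 (by rw [hd]; exact hc')) θ hθ 8 (by norm_num) 0
    (by norm_num) (δ / 4) (by positivity)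
  have b4 := clsF cl2 (F4 ε) f4 Cl4 c4 (fun c hc' d hd hs _ =>
    (h4 d (pos c (c4 c hc').2 d hd) hs).2 (by rw [hd]; exact hc')) θ hθ 4 (by norm_num) 0
    (by norm_num) (δ / 4) (by positivity)
  have b1 := clsF cl2 (F1 ε 1) f1 Cl1 c1 (fun c hc' d hd hs hd1 =>
    (h1 d (by have := pos c (c1 c hc').2 d hd; omega) hs).2 (by rw [hd]; exact hc')) θ hθ 1
    (by norm_num) 1 (by norm_num) (δ / 4) (by positivity)
  have b5 := clsF cl2 (F1 ε 5) f5 Cl5 c5 (fun c hc' d hd hs hd1 =>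
    (h5 d (by have := pos c (c5 c hc').2 d hd; omega) hs).2 (by rw [hd]; exact hc')) θ hθ 1
    (by norm_num) 1 (by norm_num) (δ / 4) (by positivity)
  obtain ⟨X0, hX0⟩ := eventually_atTop.1 (((b8.and b4).and b1).and b5)
  refine ⟨X0, fun X hX => ?_⟩
  obtain ⟨⟨⟨g8, g4⟩, g1⟩, g5⟩ := hX0 X hX
  simp only [Nat.div_one, one_mul] at g1 g5
  rw [Lf2_eq fdd ε hε Cl8 Cl4 Cl1 Cl5 (fun c h => Nat.odd_iff.1 (c4 c h).2)
    (fun c h => Nat.odd_iff.1 (c1 c h).2) (fun c h => Nat.odd_iff.1 (c5 c h).2) o15 h8 h4 h1 h5 X]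
  refine (norm_add_le _ _).trans ?_
  refine (add_le_add (norm_add_le _ _) le_rfl).trans ?_
  refine (add_le_add (add_le_add (norm_add_le _ _) le_rfl) le_rfl).trans ?_
  linarith

theorem t_IR2 (cl2 : S_CL2) (fdd : S_FDD) : S_IR2 := by
  intro θ hθ ε hε δ hδ
  rcases hε with rfl | rfl
  · exact gen cl2 fdd 1 (Or.inl rfl) {1, 3, 5, 7} {3, 7} {1} {5}
      (by decide) (by decide)
      (by
        intro d hd hs
        simp only [F8, mem_insert, mem_singleton]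
        rw [Nat.odd_iff]
        omega)
      (by
        intro d hd hs
        simp only [F4, mem_insert, mem_singleton]
        omega)
      (by
        intro d hd hs
        simp only [F1, mem_singleton]
        have := not_sq_nat hd hs
        simp only [this, not_false_eq_true, and_true]
        omega)
      (by
        intro d hd hs
        simp only [F1, mem_singleton]
        have := not_sq_nat hd hs
        simp only [this, not_false_eq_true, and_true]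
        omega) θ hθ δ hδ
  · exact gen cl2 fdd (-1) (Or.inr rfl) {1, 3, 5, 7} {1, 5} {7} {3}
      (by decide) (by decide)
      (by
        intro d hd hs
        simp only [F8, mem_insert, mem_singleton]
        rw [Nat.odd_iff]
        omega)
      (by
        intro d hd hs
        simp only [F4, mem_insert, mem_singleton]
        omega)
      (by
        intro d hd hs
        simp only [F1, mem_singleton]
        have := not_sq_neg hd
        simp only [this, not_false_eq_true, and_true]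
        omega)
      (by
        intro d hd hs
        simp only [F1, mem_singleton]
        have := not_sq_neg hd
        simp only [this, not_false_eq_true, and_true]
        omega) θ hθ δ hδ

end

end Pool.Agent.H94.BR
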