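import Pool.Agent.H28.BR.FAM
import Pool.Agent.H28.BR.Stm3

set_option autoImplicit false

/-! Project BR3, CL2: the squares of the central values, one class of one family. -/

namespace Pool.Agent.H94.BR

open Finset Filter Topology MeasureTheory Pool.Agent.H306R2.RZ Pool.Agent.H306R2.RG
  Pool.Agent.Q122.FM Pool.Agent.H28.BR Pool.Agent.H28.BR3
open Pool.Agent.Helper112 (ee)

noncomputable section

/-- the limit value -/
def EE (φ : FD) (d : ℕ) : ℝ := Einf (par φ) d (1 / (φ.r * (d : ℝ)))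

theorem off_lim (off : S_OFF) (lima : S_LIMA) (φ : FD) (hφ : Fam φ) (c : ℕ) (hc : c < 8)
    (ho : Odd c) (θ : ℝ) (hθ : Irrational θ) (a : ℕ) (ha : 1 ≤ a) (δ : ℝ) (hδ : 0 < δ) :
    ∀ᶠ X : ℕ in atTop, ‖∑ d ∈ (Icc 1 X).filter (fun d => a ^ 2 ∣ d ∧ d % 8 = c),
      ee (θ * d) * ((EE φ d ^ 2 : ℝ) : ℂ)‖ ≤ δ * (X * lg X ^ 3) := by
  obtain ⟨X0, hX0⟩ := off θ hθ (par φ) (par_ok hφ) c hc ho a ha δ hδ
  have hr : (1 : ℝ) ≤ φ.r := by exact_mod_cast (r_ok hφ).1
  filter_upwards [eventually_ge_atTop X0] with X hX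
  have hl : Tendsto (fun N : ℕ => ∑ d ∈ (Icc 1 X).filter (fun d => a ^ 2 ∣ d ∧ d % 8 = c),
      ee (θ * d) * ((EA (par φ) N d (1 / ((par φ).r * (d : ℝ))) ^ 2 : ℝ) : ℂ)) atTop
      (𝓝 (∑ d ∈ (Icc 1 X).filter (fun d => a ^ 2 ∣ d ∧ d % 8 = c),
        ee (θ * d) * ((EE φ d ^ 2 : ℝ) : ℂ))) := by
    apply tendsto_finsetSum
    intro d hd
    have hd1 : 1 ≤ d := (mem_Icc.1 (mem_filter.1 hd).1).1
    have hd' : (0 : ℝ) < d := by exact_mod_cast hd1
    have h1 := lima (par φ) (par_ok hφ) d (1 / (φ.r * (d : ℝ))) (by positivity)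
    have h3 := (Complex.continuous_ofReal.tendsto _).comp (h1.pow 2)
    exact h3.const_mul _
  exact le_of_tendsto' hl.norm (fun N => hX0 X N hX)

theorem t_CL2 (off : S_OFF) (tail : S_TAIL) (lima : S_LIMA) (feq : S_FEQ) : S_CL2 := by
  intro φ hφ c hc ho hA θ hθ δ hδ
  obtain ⟨C, hC, tail⟩ := tail φ hφ c hc ho hA
  set g : ℝ := gm (1 / 2 + φ.a) / 2 with hg
  have hg0 : 0 < g := by
    rw [hg]
    unfold gm
    have : 0 < Real.Gamma ((1 / 2 + (φ.a : ℝ)) / 2) := Real.Gamma_pos_of_pos (by positivity)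
    positivity
  set η : ℝ := g ^ 2 * δ / 4 with hη
  have hη0 : 0 < η := by positivity
  -- the choice of `A`
  obtain ⟨A, hA1, hAC⟩ : ∃ A : ℕ, 1 ≤ A ∧ C / (A : ℝ) ^ (1 / 4 : ℝ) ≤ η := by
    have h1 : Tendsto (fun A : ℕ => C / (A : ℝ) ^ (1 / 4 : ℝ)) atTop (𝓝 0) :=
      tendsto_const_nhds.div_atTop
        ((tendsto_rpow_atTop (by norm_num)).comp tendsto_natCast_atTop_atTop)
    obtain ⟨A, h2, h3⟩ := ((eventually_ge_atTop 1).and
      (h1.eventually (eventually_le_nhds hη0))).exists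
    exact ⟨A, h2, h3⟩
  have hA0 : (0 : ℝ) < A := by exact_mod_cast hA1
  have hoff := (Finset.eventually_all (Icc 1 A)).2 (fun a ha => off_lim off lima φ hφ c hc ho θ hθ a
    (mem_Icc.1 ha).1 (η / A) (by positivity))
  set M : ℝ := EE φ 1 ^ 2 with hM
  have hM0 : 0 ≤ M := sq_nonneg _
  have hlarge : ∀ᶠ X : ℕ in atTop, M ≤ η * X := by
    have h1 : Tendsto (fun X : ℕ => η * (X : ℝ)) atTop atTop :=
      Tendsto.const_mul_atTop hη0 tendsto_natCast_atTop_atTop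
    exact h1.eventually_ge_atTop M
  have hlog : ∀ᶠ X : ℕ in atTop, C ≤ η * Real.log X := by
    have h1 : Tendsto (fun X : ℕ => η * Real.log (X : ℝ)) atTop atTop :=
      Tendsto.const_mul_atTop hη0 (Real.tendsto_log_atTop.comp tendsto_natCast_atTop_atTop)
    exact h1.eventually_ge_atTop C
  obtain ⟨X0, hX0⟩ := eventually_atTop.1 (((hoff.and hlarge).and hlog).and (eventually_ge_atTop 1))
  refine ⟨X0, fun X hX => ?_⟩
  obtain ⟨⟨⟨h1, h2⟩, h3⟩, hX1⟩ := hX0 X hX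
  have hlg1 : 1 ≤ lg X := lg_one_le hX1
  have hx0 : (0 : ℝ) ≤ (X : ℝ) := Nat.cast_nonneg X
  set R : ℝ := (X : ℝ) * lg X ^ 3 with hR
  have hR0 : 0 ≤ R := by positivity
  set Z : ℕ → ℂ := fun d => ee (θ * d) * ((EE φ d ^ 2 : ℝ) : ℂ) with hZ
  -- from `LLg` to `EE`
  have e1 : ((g ^ 2 : ℝ) : ℂ) * ∑ d ∈ (Icc 1 X).filter (fun d => d % 8 = c ∧ Squarefree d ∧ d ≠ 1),
      ee (θ * d) * ((LLg φ d (1 / 2) ^ 2 : ℝ) : ℂ) =
      ∑ d ∈ (Icc 1 X).filter (fun d => d % 8 = c ∧ Squarefree d ∧ d ≠ 1), Z d := by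
    rw [Finset.mul_sum]
    apply sum_congr rfl
    intro d hd
    rw [mem_filter] at hd
    have h4 := (feq φ hφ d (hA d hd.2.1 hd.2.2.1 hd.2.2.2) hd.2.2.1).1
    simp only [hZ]
    unfold EE
    rw [h4, ← hg]
    push_cast
    ring
  -- the term `d = 1`
  have e2 : ∑ d ∈ (Icc 1 X).filter (fun d => d % 8 = c ∧ Squarefree d ∧ d ≠ 1), Z d =
      ∑ d ∈ (Icc 1 X).filter (fun d => d % 8 = c ∧ Squarefree d), Z d -
      ∑ d ∈ ((Icc 1 X).filter (fun d => d % 8 = c ∧ Squarefree d)).filter (fun d => ¬ d ≠ 1), Z d := by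
    rw [← Finset.sum_filter_add_sum_filter_not
      ((Icc 1 X).filter (fun d => d % 8 = c ∧ Squarefree d)) (fun d => d ≠ 1), add_sub_cancel_right]
    apply sum_congr _ (fun _ _ => rfl)
    ext d
    simp only [mem_filter]
    tauto
  have b2 : ‖∑ d ∈ ((Icc 1 X).filter (fun d => d % 8 = c ∧ Squarefree d)).filter
      (fun d => ¬ d ≠ 1), Z d‖ ≤ η * R := by
    refine (norm_sum_le _ _).trans ?_
    have h4 : ∀ d ∈ ((Icc 1 X).filter (fun d => d % 8 = c ∧ Squarefree d)).filter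
      (fun d => ¬ d ≠ 1), ‖Z d‖ ≤ M := by
      intro d hd
      simp only [mem_filter, not_not] at hd
      simp only [hZ]
      rw [hd.2, norm_mul, norm_ee, one_mul, Complex.norm_real, Real.norm_eq_abs, abs_of_nonneg hM0]
    refine (Finset.sum_le_card_nsmul _ _ _ h4).trans ?_
    have h5 : (((Icc 1 X).filter (fun d => d % 8 = c ∧ Squarefree d)).filter
      (fun d => ¬ d ≠ 1)).card ≤ 1 := by
      have : (((Icc 1 X).filter (fun d => d % 8 = c ∧ Squarefree d)).filter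
        (fun d => ¬ d ≠ 1)) ⊆ {1} := by
        intro d hd
        simp only [mem_filter, not_not] at hd
        rw [mem_singleton]; exact hd.2
      exact (Finset.card_le_card this).trans (by simp)
    rw [nsmul_eq_mul]
    have h6 : ((((((Icc 1 X).filter (fun d => d % 8 = c ∧ Squarefree d)).filter
      (fun d => ¬ d ≠ 1)).card : ℕ) : ℝ)) ≤ 1 := by exact_mod_cast h5
    have h7 : (X : ℝ) ≤ R := by
      rw [hR]
      have : 1 ≤ lg X ^ 3 := one_le_pow₀ hlg1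
      nlinarith
    have h8 : η * (X : ℝ) ≤ η * R := mul_le_mul_of_nonneg_left h7 hη0.le
    nlinarith
  -- the decomposition
  have e3 : ∑ d ∈ (Icc 1 X).filter (fun d => d % 8 = c ∧ Squarefree d), Z d =
      ∑ d ∈ (Icc 1 X).filter (fun d => d % 8 = c), (RA A d : ℂ) * Z d +
      ∑ d ∈ (Icc 1 X).filter (fun d => d % 8 = c),
      ((∑ a ∈ (Icc 1 A).filter (fun a => a ^ 2 ∣ d), ((ArithmeticFunction.moebius a : ℤ) : ℝ) : ℝ) : ℂ) *
        Z d := by
    rw [← Finset.sum_add_distrib, ← Finset.filter_filter, Finset.sum_filter]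
    refine Finset.sum_congr rfl fun d _ => ?_
    rw [← add_mul, ← Complex.ofReal_add]
    have h1 : RA A d + ∑ a ∈ (Icc 1 A).filter (fun a => a ^ 2 ∣ d),
        ((ArithmeticFunction.moebius a : ℤ) : ℝ) = if Squarefree d then 1 else 0 := by
      unfold RA
      ring
    rw [h1]
    split_ifs <;> simp
  have e4 : ∑ d ∈ (Icc 1 X).filter (fun d => d % 8 = c),
      ((∑ a ∈ (Icc 1 A).filter (fun a => a ^ 2 ∣ d), ((ArithmeticFunction.moebius a : ℤ) : ℝ) : ℝ) : ℂ) *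
        Z d = ∑ a ∈ Icc 1 A, (((ArithmeticFunction.moebius a : ℤ) : ℝ) : ℂ) *
        ∑ d ∈ (Icc 1 X).filter (fun d => a ^ 2 ∣ d ∧ d % 8 = c), Z d := by
    calc _ = ∑ d ∈ (Icc 1 X).filter (fun d => d % 8 = c), ∑ a ∈ Icc 1 A,
          (if a ^ 2 ∣ d then (((ArithmeticFunction.moebius a : ℤ) : ℝ) : ℂ) * Z d else 0) := by
          apply sum_congr rfl
          intro d _
          rw [Complex.ofReal_sum, Finset.sum_mul, Finset.sum_filter]
      _ = ∑ a ∈ Icc 1 A, ∑ d ∈ (Icc 1 X).filter (fun d => d % 8 = c),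
          (if a ^ 2 ∣ d then (((ArithmeticFunction.moebius a : ℤ) : ℝ) : ℂ) * Z d else 0) := sum_comm
      _ = _ := by
          apply sum_congr rfl
          intro a _
          rw [← Finset.sum_filter, Finset.filter_filter, Finset.mul_sum]
          apply sum_congr _ (fun _ _ => rfl)
          ext d
          simp only [mem_filter]
          tauto
  -- the tail
  have b3 : ‖∑ d ∈ (Icc 1 X).filter (fun d => d % 8 = c), (RA A d : ℂ) * Z d‖ ≤ 2 * (η * R) := by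
    have h4 : ‖∑ d ∈ (Icc 1 X).filter (fun d => d % 8 = c), (RA A d : ℂ) * Z d‖ ≤
        ∑ d ∈ (Icc 1 X).filter (fun d => d % 8 = c), |RA A d| * EE φ d ^ 2 := by
      refine (norm_sum_le _ _).trans (Finset.sum_le_sum fun d _ => ?_)
      simp only [hZ]
      rw [norm_mul, norm_mul, norm_ee, one_mul, Complex.norm_real, Complex.norm_real,
        Real.norm_eq_abs, Real.norm_eq_abs, abs_of_nonneg (sq_nonneg (EE φ d))]
    refine h4.trans ((tail A X hA1 hX1).trans ?_)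
    have h5 : C * (X * lg X ^ 3 / (A : ℝ) ^ (1 / 4 : ℝ)) ≤ η * R := by
      rw [← hR]
      calc C * (R / (A : ℝ) ^ (1 / 4 : ℝ)) = C / (A : ℝ) ^ (1 / 4 : ℝ) * R := by ring
        _ ≤ η * R := mul_le_mul_of_nonneg_right hAC hR0
    have h6 : C * (X * lg X ^ 2) ≤ η * R := by
      have h7 : C ≤ η * lg X := by
        have : η * lg X = η + η * Real.log X := by unfold lg; ring
        linarith
      have h8 : 0 ≤ (X : ℝ) * lg X ^ 2 := by positivity
      calc C * (X * lg X ^ 2) ≤ (η * lg X) * (X * lg X ^ 2) := mul_le_mul_of_nonneg_right h7 h8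
        _ = η * R := by rw [hR]; ring
    linarith
  -- the main part
  have b4 : ‖∑ a ∈ Icc 1 A, (((ArithmeticFunction.moebius a : ℤ) : ℝ) : ℂ) *
        ∑ d ∈ (Icc 1 X).filter (fun d => a ^ 2 ∣ d ∧ d % 8 = c), Z d‖ ≤ η * R := by
    refine (norm_sum_le _ _).trans ?_
    have h4 : ∀ a ∈ Icc 1 A, ‖(((ArithmeticFunction.moebius a : ℤ) : ℝ) : ℂ) *
        ∑ d ∈ (Icc 1 X).filter (fun d => a ^ 2 ∣ d ∧ d % 8 = c), Z d‖ ≤ η / A * R := by
      intro a ha
      rw [norm_mul, Complex.norm_real, Real.norm_eq_abs]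
      have h5 : |((ArithmeticFunction.moebius a : ℤ) : ℝ)| ≤ 1 := by
        have := ArithmeticFunction.abs_moebius_le_one (n := a)
        exact_mod_cast this
      calc _ ≤ 1 * (η / A * R) := mul_le_mul h5 (h1 a ha) (norm_nonneg _) (by norm_num)
        _ = _ := one_mul _
    refine (Finset.sum_le_card_nsmul _ _ _ h4).trans (le_of_eq ?_)
    rw [nsmul_eq_mul, Nat.card_Icc, Nat.add_sub_cancel]
    field_simp
  have hfin : ‖((g ^ 2 : ℝ) : ℂ) * ∑ d ∈ (Icc 1 X).filter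
      (fun d => d % 8 = c ∧ Squarefree d ∧ d ≠ 1),
      ee (θ * d) * ((LLg φ d (1 / 2) ^ 2 : ℝ) : ℂ)‖ ≤ 4 * (η * R) := by
    rw [e1, e2, e3, e4]
    refine (norm_sub_le _ _).trans ?_
    refine (add_le_add (norm_add_le _ _) le_rfl).trans ?_
    linarith
  rw [norm_mul, Complex.norm_real, Real.norm_eq_abs, abs_of_nonneg (sq_nonneg g)] at hfin
  have h9 : 4 * (η * R) = g ^ 2 * (δ * R) := by rw [hη]; ring
  rw [h9] at hfin
  exact le_of_mul_le_mul_left hfin (by positivity)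

end

end Pool.Agent.H94.BR
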